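import Pool.Agent.Q175.MG.Uniq
import Pool.Agent.Q175.MG.Ex

/-!
Uniqueness of the maximal globally hyperbolic development for the model wave equation
`-∂ₜ²Φ - Ψ ∂ₜ∂ₓΦ + 2 (2 + Ψ) ∂ₓ²Φ = 0`, `Ψ = ∂ₜΦ - 2 ∂ₓΦ`, for all smooth data.

The equation says `∂ₜΨ + (2 + Ψ) ∂ₓΨ = 0`, so that `Ψ` is constant along the outgoing
characteristics, which are straight lines, while the incoming characteristics are the fixed lines of
slope `-2`. In a globally hyperbolic development the closed characteristic triangle of a point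
reaching back to `{t = 0}` stays in the domain. The characteristic triangles of a common point of
two developments share the incoming side, hence are nested, and this forces the two values of `Ψ`
to coincide. So two developments agree on their common domain and their union is a development.

The definitions (`IsGHD`, `IsMGHD`, ...) are in `Pool.Agent.Q175.MG.Defs`.
-/

namespace Pool.Agent.Results.MP_0eca13_an.UniqueMGHD

open Set
open scoped ContDiff
open Pool.Agent.Q175.MG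

/-- For every smooth datum with `Ψ ≠ -4` on `{t = 0}` there is exactly one maximal globally
hyperbolic development, and it extends every globally hyperbolic development of the datum. -/
theorem result (φ₀ φ₁ : ℝ → ℝ) (h₀ : ContDiff ℝ ∞ φ₀) (h₁ : ContDiff ℝ ∞ φ₁)
    (hne : ∀ x, φ₁ x - 2 * deriv φ₀ x ≠ -4) :
    ∃ (Ω : Set (ℝ × ℝ)) (Φ : ℝ × ℝ → ℝ), IsMGHD φ₀ φ₁ Ω Φ ∧
      (∀ (Ω' : Set (ℝ × ℝ)) (Φ' : ℝ × ℝ → ℝ), IsGHD φ₀ φ₁ Ω' Φ' → Ω' ⊆ Ω ∧ EqOn Φ' Φ Ω') ∧
      ∀ (Ω' : Set (ℝ × ℝ)) (Φ' : ℝ × ℝ → ℝ), IsMGHD φ₀ φ₁ Ω' Φ' → Ω' = Ω ∧ EqOn Φ' Φ Ω := by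
  refine ⟨bigU φ₀ φ₁, bigΦ φ₀ φ₁, big_isMGHD (exists_GHD h₀ h₁ hne), fun Ω' Φ' h' =>
    ⟨fun p hp => ⟨_, _, h', hp⟩, (big_eq h').symm⟩, fun Ω' Φ' h' => ?_⟩
  obtain ⟨h1, h2⟩ := mghd_eq h'
  refine ⟨h1, ?_⟩
  rwa [h1] at h2

end Pool.Agent.Results.MP_0eca13_an.UniqueMGHD
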